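import Mathlib

/-!
# Two quadratic forms in characteristic two (helper805)
-/

set_option autoImplicit false
set_option linter.all false

namespace Run7.h805.Quad

open Finset

theorem sum_pairs {M : Type*} [AddCommMonoid M] (F : ℕ → M) (h : ∀ j, F (3 * j + 2) = 0) (m : ℕ) :
    ∑ i ∈ range (3 * m + 2), F i = ∑ j ∈ range (m + 1), (F (3 * j) + F (3 * j + 1)) := by
  induction m with
  | zero => simp [Finset.sum_range_succ]
  | succ m ih =>
    rw [Finset.sum_range_succ _ (m + 1), ← ih]
    have e : 3 * (m + 1) + 2 = 3 * m + 2 + 1 + 1 + 1 := by ring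
    have e2 : 3 * m + 2 + 1 + 1 = 3 * (m + 1) + 1 := by ring
    have e1 : 3 * m + 2 + 1 = 3 * (m + 1) := by ring
    rw [e, Finset.sum_range_succ, Finset.sum_range_succ, Finset.sum_range_succ, h, add_zero, e2,
      e1, add_assoc]

theorem sum_singles {M : Type*} [AddCommMonoid M] (F : ℕ → M) (h1 : ∀ j, F (3 * j + 1) = 0)
    (h2 : ∀ j, F (3 * j + 2) = 0) (m : ℕ) :
    ∑ i ∈ range (3 * m + 1), F i = ∑ j ∈ range (m + 1), F (3 * j) := by
  induction m with
  | zero => simp
  | succ m ih =>
    rw [Finset.sum_range_succ _ (m + 1), ← ih]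
    have e : 3 * (m + 1) + 1 = 3 * m + 1 + 1 + 1 + 1 := by ring
    have e2 : 3 * m + 1 + 1 = 3 * m + 2 := by ring
    have e3 : 3 * m + 1 + 1 + 1 = 3 * (m + 1) := by ring
    rw [e, Finset.sum_range_succ, Finset.sum_range_succ, Finset.sum_range_succ, h1, add_zero, e2,
      h2, add_zero]
    rfl

/-- the vector with the entries `u j` at `3 j`, `v j` at `3 j + 1` and `0` at `3 j + 2` -/
def spread {k : Type*} [Zero k] (u v : ℕ → k) (i : ℕ) : k :=
  if i % 3 = 0 then u (i / 3) else if i % 3 = 1 then v (i / 3) else 0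

theorem spread_zero {k : Type*} [Zero k] (u v : ℕ → k) (j : ℕ) : spread u v (3 * j) = u j := by
  simp [spread]

theorem spread_one {k : Type*} [Zero k] (u v : ℕ → k) (j : ℕ) : spread u v (3 * j + 1) = v j := by
  have h1 : (3 * j + 1) % 3 = 1 := by omega
  have h2 : (3 * j + 1) / 3 = j := by omega
  simp [spread, h1, h2]

theorem spread_two {k : Type*} [Zero k] (u v : ℕ → k) (j : ℕ) : spread u v (3 * j + 2) = 0 := by
  have h1 : (3 * j + 2) % 3 = 2 := by omega
  simp [spread, h1]

/-- the value of the path form at a spread vector -/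
theorem path_spread {k : Type*} [Field k] (α : ℕ → k) (c : k) (u v : ℕ → k) (m : ℕ) :
    ∑ i ∈ range (3 * m + 2), α i * spread u v i ^ 2 +
      c * ∑ i ∈ range (3 * m + 1), spread u v i * spread u v (i + 1) =
    ∑ j ∈ range (m + 1), (α (3 * j) * u j ^ 2 + α (3 * j + 1) * v j ^ 2 + c * (u j * v j)) := by
  rw [sum_pairs _ (fun j => by rw [spread_two]; ring), sum_singles _ (fun j => by
    rw [show 3 * j + 1 + 1 = 3 * j + 2 by ring, spread_two, mul_zero]) (fun j => by
    rw [spread_two, zero_mul]), Finset.mul_sum, ← Finset.sum_add_distrib]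
  refine Finset.sum_congr rfl fun j _ => ?_
  rw [spread_zero, spread_one]

section forms

open MvPolynomial

variable {k : Type*} [Field k] {m : ℕ} {ι : Type*} [Fintype ι] [DecidableEq ι]
  (e : Fin m × Fin 2 ≃ ι) (a b lam : Fin m → k) (c : k)

/-- the binary form `a_j x² + b_j y² + c x y` in the variables `x = X (e (j, 0))`, `y = X (e (j, 1))` -/
noncomputable def bin (j : Fin m) : MvPolynomial ι k :=
  C (a j) * X (e (j, 0)) ^ 2 + C (b j) * X (e (j, 1)) ^ 2 + C c * (X (e (j, 0)) * X (e (j, 1)))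

/-- the first form -/
noncomputable def ff : MvPolynomial ι k := ∑ j, bin e a b c j

/-- the second form -/
noncomputable def gg : MvPolynomial ι k := ∑ j, (C (lam j) * bin e a b c j + X (e (j, 0)) ^ 2)

theorem bin_hom (j : Fin m) : (bin e a b c j).IsHomogeneous 2 := by
  refine (IsHomogeneous.add (IsHomogeneous.add ?_ ?_) ?_)
  · exact isHomogeneous_C_mul_X_pow _ _ _
  · exact isHomogeneous_C_mul_X_pow _ _ _
  · exact ((isHomogeneous_X k _).mul (isHomogeneous_X k _)).C_mul c

theorem ff_hom : (ff e a b c).IsHomogeneous 2 :=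
  IsHomogeneous.sum _ _ _ fun j _ => bin_hom e a b c j

theorem gg_hom : (gg e a b lam c).IsHomogeneous 2 :=
  IsHomogeneous.sum _ _ _ fun j _ => ((bin_hom e a b c j).C_mul _).add (isHomogeneous_X_pow _ _)

variable {A : Type*} [Field A] [Algebra k A]

theorem aeval_bin (x : ι → A) (j : Fin m) : aeval x (bin e a b c j) =
    algebraMap k A (a j) * x (e (j, 0)) ^ 2 + algebraMap k A (b j) * x (e (j, 1)) ^ 2 +
      algebraMap k A c * (x (e (j, 0)) * x (e (j, 1))) := by
  simp [bin]

theorem aeval_ff (x : ι → A) : aeval x (ff e a b c) = ∑ j,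
    (algebraMap k A (a j) * x (e (j, 0)) ^ 2 + algebraMap k A (b j) * x (e (j, 1)) ^ 2 +
      algebraMap k A c * (x (e (j, 0)) * x (e (j, 1)))) := by
  rw [ff, map_sum]
  exact Finset.sum_congr rfl fun j _ => aeval_bin e a b c x j

theorem aeval_gg (x : ι → A) : aeval x (gg e a b lam c) = ∑ j,
    (algebraMap k A (lam j) * (algebraMap k A (a j) * x (e (j, 0)) ^ 2 +
      algebraMap k A (b j) * x (e (j, 1)) ^ 2 +
      algebraMap k A c * (x (e (j, 0)) * x (e (j, 1)))) + x (e (j, 0)) ^ 2) := by
  rw [gg, map_sum]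
  refine Finset.sum_congr rfl fun j _ => ?_
  rw [map_add, map_mul, aeval_bin, aeval_C, map_pow, aeval_X]

theorem pderiv_sq [CharP k 2] (i p : ι) : pderiv i (X p ^ 2 : MvPolynomial ι k) = 0 := by
  have h3 : ((2 : ℕ) : MvPolynomial ι k) = 0 := CharP.cast_eq_zero _ 2
  rw [pderiv_pow, h3]
  ring

theorem pderiv_bin [CharP k 2] (i : ι) (j : Fin m) : pderiv i (bin e a b c j) =
    C c * (X (e (j, 0)) * pderiv i (X (e (j, 1))) + X (e (j, 1)) * pderiv i (X (e (j, 0)))) := by
  rw [bin, map_add, map_add, pderiv_C_mul, pderiv_C_mul, pderiv_C_mul, pderiv_sq, pderiv_sq,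
    pderiv_mul]
  ring

theorem aeval_pderiv_bin [CharP k 2] (x : ι → A) (j j' : Fin m) :
    aeval x (pderiv (e (j', 0)) (bin e a b c j)) =
      (if j = j' then algebraMap k A c * x (e (j', 1)) else 0) ∧
    aeval x (pderiv (e (j', 1)) (bin e a b c j)) =
      (if j = j' then algebraMap k A c * x (e (j', 0)) else 0) := by
  rw [pderiv_bin, pderiv_bin]
  simp only [pderiv_X, map_mul, map_add, aeval_C, aeval_X]
  by_cases h : j = j'
  · subst h
    constructor
    · simp [Pi.single_apply]
    · simp [Pi.single_apply]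
  · constructor
    · simp [Pi.single_apply, h]
    · simp [Pi.single_apply, h]

theorem grad_ff [CharP k 2] (x : ι → A) (j' : Fin m) :
    aeval x (pderiv (e (j', 0)) (ff e a b c)) = algebraMap k A c * x (e (j', 1)) ∧
    aeval x (pderiv (e (j', 1)) (ff e a b c)) = algebraMap k A c * x (e (j', 0)) := by
  rw [ff, map_sum, map_sum, map_sum, map_sum]
  constructor
  · rw [Finset.sum_congr rfl fun j _ => (aeval_pderiv_bin e a b c x j j').1]
    simp
  · rw [Finset.sum_congr rfl fun j _ => (aeval_pderiv_bin e a b c x j j').2]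
    simp

theorem grad_gg [CharP k 2] (x : ι → A) (j' : Fin m) :
    aeval x (pderiv (e (j', 0)) (gg e a b lam c)) =
      algebraMap k A (lam j') * (algebraMap k A c * x (e (j', 1))) ∧
    aeval x (pderiv (e (j', 1)) (gg e a b lam c)) =
      algebraMap k A (lam j') * (algebraMap k A c * x (e (j', 0))) := by
  have h : ∀ i j, aeval x (pderiv i (C (lam j) * bin e a b c j + X (e (j, 0)) ^ 2)) =
      algebraMap k A (lam j) * aeval x (pderiv i (bin e a b c j)) := by
    intro i j
    rw [map_add, pderiv_sq, pderiv_C_mul, add_zero, map_mul, aeval_C]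
  rw [gg, map_sum, map_sum, map_sum, map_sum]
  constructor
  · rw [Finset.sum_congr rfl fun j _ => (h _ j).trans
      (by rw [(aeval_pderiv_bin e a b c x j j').1])]
    simp
  · rw [Finset.sum_congr rfl fun j _ => (h _ j).trans
      (by rw [(aeval_pderiv_bin e a b c x j j').2])]
    simp

/-- the gradients are linearly independent at the common zeros -/
theorem smooth_ff_gg [CharP k 2] (hc : c ≠ 0) (hb : ∀ j, b j ≠ 0)
    (hlam : Function.Injective lam) (x : ι → A) (hx : x ≠ 0) (hf : aeval x (ff e a b c) = 0)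
    (hg : aeval x (gg e a b lam c) = 0) :
    LinearIndependent A ![fun i => aeval x (pderiv i (ff e a b c)),
      fun i => aeval x (pderiv i (gg e a b lam c))] := by
  classical
  rw [LinearIndependent.pair_iff]
  intro s t hst
  have hcA : algebraMap k A c ≠ 0 := (_root_.map_ne_zero _).2 hc
  have h1 : ∀ j, (s + t * algebraMap k A (lam j)) * x (e (j, 0)) = 0 ∧
      (s + t * algebraMap k A (lam j)) * x (e (j, 1)) = 0 := by
    intro j
    have e0 := congrFun hst (e (j, 0))
    have e1 := congrFun hst (e (j, 1))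
    simp only [Pi.add_apply, Pi.smul_apply, smul_eq_mul, Pi.zero_apply] at e0 e1
    rw [(grad_ff e a b c x j).1, (grad_gg e a b lam c x j).1] at e0
    rw [(grad_ff e a b c x j).2, (grad_gg e a b lam c x j).2] at e1
    constructor
    · apply mul_left_cancel₀ hcA
      rw [mul_zero]
      linear_combination e1
    · apply mul_left_cancel₀ hcA
      rw [mul_zero]
      linear_combination e0
  obtain ⟨j₀, hj₀⟩ : ∃ j₀, x (e (j₀, 0)) ≠ 0 ∨ x (e (j₀, 1)) ≠ 0 := by
    by_contra hcon
    push Not at hcon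
    apply hx
    funext i
    obtain ⟨⟨j, r⟩, rfl⟩ := e.surjective i
    fin_cases r
    · exact (hcon j).1
    · exact (hcon j).2
  have h2 : s + t * algebraMap k A (lam j₀) = 0 := by
    rcases hj₀ with h | h
    · exact (mul_eq_zero.1 (h1 j₀).1).resolve_right h
    · exact (mul_eq_zero.1 (h1 j₀).2).resolve_right h
  by_cases ht : t = 0
  · rw [ht, zero_mul, add_zero] at h2
    exact ⟨h2, ht⟩
  exfalso
  have h3 : ∀ j, j ≠ j₀ → x (e (j, 0)) = 0 ∧ x (e (j, 1)) = 0 := by
    intro j hj
    have h4 : s + t * algebraMap k A (lam j) ≠ 0 := by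
      intro h5
      have h6 : t * (algebraMap k A (lam j) - algebraMap k A (lam j₀)) = 0 := by
        linear_combination h5 - h2
      have h7 := (mul_eq_zero.1 h6).resolve_left ht
      exact hj (hlam ((algebraMap k A).injective (sub_eq_zero.1 h7)))
    exact ⟨(mul_eq_zero.1 (h1 j).1).resolve_left h4, (mul_eq_zero.1 (h1 j).2).resolve_left h4⟩
  rw [aeval_ff, Finset.sum_eq_single j₀ (fun j _ hj => by
    rw [(h3 j hj).1, (h3 j hj).2]; ring) (fun h => absurd (Finset.mem_univ _) h)] at hf
  rw [aeval_gg, Finset.sum_eq_single j₀ (fun j _ hj => by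
    rw [(h3 j hj).1, (h3 j hj).2]; ring) (fun h => absurd (Finset.mem_univ _) h), hf] at hg
  have h8 : x (e (j₀, 0)) = 0 := by
    have h9 : x (e (j₀, 0)) ^ 2 = 0 := by linear_combination hg
    exact pow_eq_zero_iff two_ne_zero |>.1 h9
  rw [h8] at hf
  have h9 : algebraMap k A (b j₀) * x (e (j₀, 1)) ^ 2 = 0 := by linear_combination hf
  have h10 : x (e (j₀, 1)) = 0 := by
    have h11 := (mul_eq_zero.1 h9).resolve_left ((_root_.map_ne_zero _).2 (hb j₀))
    exact pow_eq_zero_iff two_ne_zero |>.1 h11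
  rcases hj₀ with h | h
  · exact h h8
  · exact h h10

end forms

end Run7.h805.Quad
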