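import Pool.Agent.Y233.Cd.F
import Pool.Agent.Run7.h805.Quad.Forms

/-!
# Intersections of two quadrics without points over a field of cohomological dimension one
(helper805)

Uses the field and the anisotropic forms of the starting files `Pool/Agent/Y233/Cd` and
`Pool/Agent/Helper346/Cd` (the starting results on the problem `MP_8f38d0_ag`).
-/

set_option autoImplicit false
set_option linter.all false

open MvPolynomial Pool.Agent.Helper346.Cd Pool.Agent.Y233.Cd

namespace Run7.h805.Quad

/-- the Galois group has a nontrivial first cohomology group if an Artin-Schreier polynomial has no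
root -/
theorem h1_ne {k : Type} [Field k] [CharP k 2] (w : k) (hw : ∀ u : k, u ^ 2 + u ≠ w) :
    ∃ (_ : DistribMulAction Gal(SeparableClosure k/k) (ZMod 2)),
      IsDiscreteModule Gal(SeparableClosure k/k) (ZMod 2) ∧
      ¬ HSuccVanishes Gal(SeparableClosure k/k) (ZMod 2) 0 := by
  classical
  let G := Gal(SeparableClosure k/k)
  have hchar : CharP (SeparableClosure k) 2 :=
    charP_of_injective_algebraMap (algebraMap k (SeparableClosure k)).injective 2
  let act : DistribMulAction G (ZMod 2) :=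
    { smul := fun _ m => m
      one_smul := fun _ => rfl
      mul_smul := fun _ _ _ => rfl
      smul_zero := fun _ => rfl
      smul_add := fun _ _ _ => rfl }
  have hact : ∀ (g : G) (m : ZMod 2), g • m = m := fun _ _ => rfl
  refine ⟨act, ?_, ?_⟩
  · intro m
    have : {g : G | g • m = m} = Set.univ := Set.eq_univ_of_forall fun g => hact g m
    rw [this]
    exact isOpen_univ
  -- a root of the Artin-Schreier polynomial
  let P : Polynomial k := Polynomial.X ^ 2 + Polynomial.X - Polynomial.C w
  have hPd : P.natDegree = 2 := by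
    simp only [P]
    compute_degree!
  have hsep : P.Separable := by
    rw [Polynomial.separable_def]
    have h2 : ((2 : ℕ) : Polynomial k) = 0 := CharP.cast_eq_zero _ 2
    have hder : Polynomial.derivative P = 1 := by
      simp only [P, Polynomial.derivative_sub, Polynomial.derivative_add,
        Polynomial.derivative_X_pow, Polynomial.derivative_X, Polynomial.derivative_C, sub_zero]
      have h3 : (Polynomial.C ((2 : ℕ) : k)) = 0 := by
        rw [CharP.cast_eq_zero, map_zero]
      rw [h3]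
      ring
    rw [hder]
    exact isCoprime_one_right
  obtain ⟨θ, hθ⟩ := IsSepClosed.exists_root (P.map (algebraMap k (SeparableClosure k))) (by
    rw [Polynomial.degree_map]
    intro h
    have := Polynomial.natDegree_eq_zero_iff_degree_le_zero.2 h.le
    omega) (hsep.map)
  have hθ' : θ ^ 2 + θ = algebraMap k _ w := by
    have h1 : (P.map (algebraMap k (SeparableClosure k))).eval θ = 0 := hθ
    simp only [P, Polynomial.map_sub, Polynomial.map_add, Polynomial.map_pow, Polynomial.map_X,
      Polynomial.map_C, Polynomial.eval_sub, Polynomial.eval_add, Polynomial.eval_pow,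
      Polynomial.eval_X, Polynomial.eval_C] at h1
    linear_combination h1
  have hσ : ∀ σ : G, σ θ = θ ∨ σ θ = θ + 1 := by
    intro σ
    have h1 : σ θ ^ 2 + σ θ = θ ^ 2 + θ := by
      rw [← map_pow, ← map_add, hθ', AlgEquiv.commutes]
    have h2 : (2 : SeparableClosure k) = 0 := by
      have := CharP.cast_eq_zero (SeparableClosure k) 2
      exact_mod_cast this
    have h3 : (σ θ - θ) * (σ θ - (θ + 1)) = 0 := by
      linear_combination h1 + (θ ^ 2 + θ - σ θ - σ θ * θ) * h2
    rcases mul_eq_zero.1 h3 with h | h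
    · exact Or.inl (sub_eq_zero.1 h)
    · exact Or.inr (sub_eq_zero.1 h)
  obtain ⟨σ₀, hσ₀⟩ : ∃ σ : G, σ θ ≠ θ := by
    by_contra hcon
    push Not at hcon
    have h1 : θ ∈ (IntermediateField.fixedField (⊤ : Subgroup G)) := fun σ => hcon σ
    have h2 : IntermediateField.fixedField (⊤ : Subgroup G) = (⊥ : IntermediateField k (SeparableClosure k)) := by
      exact InfiniteGalois.fixedField_bot
    rw [h2, IntermediateField.mem_bot] at h1
    obtain ⟨u, hu⟩ := h1
    apply hw u
    apply (algebraMap k (SeparableClosure k)).injective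
    rw [map_add, map_pow, hu, hθ']
  let χ : G → ZMod 2 := fun σ => if σ θ = θ then 0 else 1
  have h10 : (1 : SeparableClosure k) ≠ 0 := one_ne_zero
  have hχ : ∀ σ τ : G, χ (σ * τ) = χ σ + χ τ := by
    intro σ τ
    have h11 : (1 : SeparableClosure k) + 1 = 0 := by
      have := CharP.cast_eq_zero (SeparableClosure k) 2
      push_cast at this
      rw [← this]
      norm_num
    have hm : (σ * τ) θ = σ (τ θ) := rfl
    have e1 : χ (σ * τ) = if σ (τ θ) = θ then 0 else 1 := rfl
    have e2 : χ σ = if σ θ = θ then 0 else 1 := rfl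
    have e3 : χ τ = if τ θ = θ then 0 else 1 := rfl
    have h12 : θ + 1 ≠ θ := fun h => h10 (by linear_combination h)
    rw [e1, e2, e3]
    rcases hσ σ with h | h <;> rcases hσ τ with h' | h'
    · rw [h', h]
      simp
    · rw [h', map_add, map_one, h]
      simp
    · rw [h', h]
      simp
    · rw [h', map_add, map_one, h, add_assoc, h11, add_zero, if_pos rfl, if_neg h12]
      decide
  have hχ1 : χ 1 = 0 := if_pos rfl
  have hχinv : ∀ σ : G, χ σ⁻¹ = χ σ := by
    intro σ
    have h := hχ σ⁻¹ σ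
    rw [inv_mul_cancel, hχ1] at h
    have h2 : χ σ⁻¹ = - χ σ := eq_neg_of_add_eq_zero_left h.symm
    rw [h2]
    exact ZMod.neg_eq_self_mod_two _
  have hχlc : IsLocallyConstant χ := by
    rw [IsLocallyConstant.iff_exists_open]
    intro σ
    have hopen : IsOpen {τ : G | τ θ = σ θ} := by
      have h1 : IsOpen (IntermediateField.fixingSubgroup
          (IntermediateField.adjoin k {θ}) : Set G) := by
        have := IntermediateField.adjoin.finiteDimensional (K := k)
          (Algebra.IsIntegral.isIntegral (R := k) θ)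
        exact IntermediateField.fixingSubgroup_isOpen _
      have h2 := h1.leftCoset σ
      refine isOpen_iff_mem_nhds.2 ?_
      intro τ hτ
      refine Filter.mem_of_superset ((h1.leftCoset τ).mem_nhds ⟨1, one_mem _, mul_one _⟩) ?_
      rintro _ ⟨ρ, hρ, rfl⟩
      have h3 : ρ θ = θ := by
        have := (IntermediateField.mem_fixingSubgroup_iff _ ρ).1 hρ θ
          (IntermediateField.mem_adjoin_simple_self k θ)
        exact this
      change (τ * ρ) θ = σ θ
      change τ (ρ θ) = σ θ
      rw [h3]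
      exact hτ
    refine ⟨_, hopen, rfl, fun τ hτ => ?_⟩
    have hτ' : τ θ = σ θ := hτ
    simp only [χ, hτ']
  intro hv
  let F : (Fin 2 → G) → ZMod 2 := fun x => χ ((x 0)⁻¹ * x 1)
  have hF1 : IsLocallyConstant F := by
    have hcont : Continuous fun x : Fin 2 → G => (x 0)⁻¹ * x 1 :=
      ((continuous_apply 0).inv).mul (continuous_apply 1)
    exact hχlc.comp_continuous hcont
  have hF2 : ∀ (g : G) (x : Fin 2 → G), F (fun i => g * x i) = g • F x := by
    intro h x
    rw [hact]
    simp only [F]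
    congr 1
    group
  have hF3 : diff 1 F = 0 := by
    funext x
    have e0 : ∀ a b : G, χ (a⁻¹ * b) = χ a + χ b := fun a b => by rw [hχ, hχinv]
    have e1 : diff 1 F x = (-1 : ℤ) ^ 0 • χ ((x 1)⁻¹ * x 2) + (-1 : ℤ) ^ 1 • χ ((x 0)⁻¹ * x 2) +
        (-1 : ℤ) ^ 2 • χ ((x 0)⁻¹ * x 1) := Fin.sum_univ_three _
    rw [e1, e0, e0, e0]
    change _ = (0 : ZMod 2)
    generalize χ (x 0) = a0
    generalize χ (x 1) = a1
    generalize χ (x 2) = a2
    revert a0 a1 a2
    decide
  obtain ⟨g, hg1, hg2⟩ := hv F ⟨hF1, hF2⟩ hF3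
  have hconst : ∀ x y : Fin 1 → G, g x = g y := by
    intro x y
    have h1 := hg1.2 (y 0 * (x 0)⁻¹) x
    rw [hact] at h1
    rw [← h1]
    congr 1
    funext i
    fin_cases i
    simp
  have h1 := congrFun hg2 ![1, σ₀]
  have h2 : diff 0 g ![1, σ₀] = 0 := by
    have e1 : diff 0 g ![1, σ₀] =
        (-1 : ℤ) ^ ((0 : Fin 2) : ℕ) • g (fun i => (![1, σ₀] : Fin 2 → G) ((0 : Fin 2).succAbove i)) +
        (-1 : ℤ) ^ ((1 : Fin 2) : ℕ) • g (fun i => (![1, σ₀] : Fin 2 → G) ((1 : Fin 2).succAbove i)) :=
      Fin.sum_univ_two _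
    rw [e1, hconst (fun i => (![1, σ₀] : Fin 2 → G) ((0 : Fin 2).succAbove i))
      (fun i => (![1, σ₀] : Fin 2 → G) ((1 : Fin 2).succAbove i))]
    simp
    exact CharTwo.add_self_eq_zero _
  rw [h2] at h1
  have h3 : F ![1, σ₀] = 1 := by
    simp [F, χ, hσ₀]
  rw [h3] at h1
  exact zero_ne_one h1

/-- the entries with number less than `m` of a vector, the others being zero -/
def ext {k : Type*} [Zero k] {m : ℕ} (x : Fin m → k) (j : ℕ) : k :=
  if h : j < m then x ⟨j, h⟩ else 0

theorem ext_val {k : Type*} [Zero k] {m : ℕ} (x : Fin m → k) (j : Fin m) : ext x j = x j := by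
  simp [ext]

theorem aeval_self {k ι : Type*} [Field k] (x : ι → k) (f : MvPolynomial ι k) :
    aeval x f = eval x f := by
  rw [← coe_aeval_eq_eval]
  rfl

/-- the binary blocks of the path form have no common zero -/
theorem blocks_aniso {E : Type*} [Field E] (α : ℕ → E) (c : E) (m : ℕ)
    (hna : ¬ HasRationalPoint (dform (3 * m + 1) 2 (fun i => α i) c))
    (u v : Fin (m + 1) → E)
    (h : ∑ j : Fin (m + 1), (α (3 * j) * u j ^ 2 + α (3 * j + 1) * v j ^ 2 + c * (u j * v j)) = 0) :
    u = 0 ∧ v = 0 := by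
  by_contra hcon
  apply hna
  let z : ℕ → E := spread (ext u) (ext v)
  refine ⟨fun i => z i, ?_, ?_⟩
  · intro h0
    apply hcon
    have hz : ∀ i, i < 3 * m + 2 → z i = 0 := fun i hi => congrFun h0 ⟨i, hi⟩
    constructor
    · funext j
      have h1 := hz (3 * j) (by omega)
      simp only [z] at h1
      rw [spread_zero, ext_val] at h1
      exact h1
    · funext j
      have h1 := hz (3 * j + 1) (by omega)
      simp only [z] at h1
      rw [spread_one, ext_val] at h1
      exact h1
  · have h1 := aeval_dform (A := E) (3 * m + 1) 2 (fun i => α i) c (fun i => z i)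
    rw [aeval_self] at h1
    change eval (fun i : Fin (3 * m + 1 + 1) => z i) _ = 0
    rw [h1]
    have e1 : ∑ i : Fin (3 * m + 1 + 1), algebraMap E E (α i) * z i ^ 2 =
        ∑ i ∈ Finset.range (3 * m + 2), α i * z i ^ 2 :=
      Fin.sum_univ_eq_sum_range (fun i => α i * z i ^ 2) (3 * m + 2)
    have e2 : ∑ i : Fin (3 * m + 1), z (i.castSucc : Fin (3 * m + 1 + 1)) ^ (2 - 1) *
        z (i.succ : Fin (3 * m + 1 + 1)) =
        ∑ i ∈ Finset.range (3 * m + 1), z i * z (i + 1) := by
      rw [← Fin.sum_univ_eq_sum_range (fun i => z i * z (i + 1)) (3 * m + 1)]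
      refine Finset.sum_congr rfl fun i _ => ?_
      simp
    rw [e1, e2]
    have e3 := path_spread α c (ext u) (ext v) m
    change ∑ i ∈ Finset.range (3 * m + 2), α i * z i ^ 2 +
      c * ∑ i ∈ Finset.range (3 * m + 1), z i * z (i + 1) = _ at e3
    change _ + c * _ = 0
    rw [e3, ← h]
    rw [← Fin.sum_univ_eq_sum_range (fun j => α (3 * j) * ext u j ^ 2 + α (3 * j + 1) * ext v j ^ 2 +
      c * (ext u j * ext v j)) (m + 1)]
    refine Finset.sum_congr rfl fun j _ => ?_
    rw [ext_val, ext_val]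

theorem core {E : Type} [Field E] [CharP E 2] (α : ℕ → E) (c : E) (hαinj : Function.Injective α)
    (hα0 : ∀ i, α i ≠ 0) (hc : c ≠ 0)
    (hna : ∀ m : ℕ, ¬ HasRationalPoint (dform (3 * m + 1) 2 (fun i => α i) c)) :
    (∃ (M : Type) (_ : AddCommGroup M) (_ : DistribMulAction Gal(SeparableClosure E/E) M),
      IsDiscreteModule Gal(SeparableClosure E/E) M ∧ (∀ a : M, IsOfFinAddOrder a) ∧
      ¬ HSuccVanishes Gal(SeparableClosure E/E) M 0) ∧
    ∀ m : ℕ, ∃ f g : MvPolynomial (Fin (2 * m + 2)) E, f.IsHomogeneous 2 ∧ g.IsHomogeneous 2 ∧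
      (∀ x : Fin (2 * m + 2) → AlgebraicClosure E, x ≠ 0 → aeval x f = 0 → aeval x g = 0 →
        LinearIndependent (AlgebraicClosure E) ![fun i => aeval x (pderiv i f),
          fun i => aeval x (pderiv i g)]) ∧
      (∀ x : Fin (2 * m + 2) → E, eval x f = 0 → x = 0) := by
  refine ⟨?_, fun m => ?_⟩
  · obtain ⟨act, h1, h2⟩ := h1_ne (k := E) (α 0 * α 1 / c ^ 2) (by
      intro u hu
      have h3 : ∑ j : Fin (0 + 1), (α (3 * j) * (fun _ => c * u) j ^ 2 +
          α (3 * j + 1) * (fun _ => α 0) j ^ 2 + c * ((fun _ => c * u) j * (fun _ => α 0) j)) = 0 := by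
        have h4 : u ^ 2 * c ^ 2 + u * c ^ 2 = α 0 * α 1 := by
          have h5 : (u ^ 2 + u) * c ^ 2 = α 0 * α 1 := by
            rw [hu]
            field_simp
          linear_combination h5
        have h6 : (2 : E) = 0 := by
          have := CharP.cast_eq_zero E 2
          exact_mod_cast this
        refine (Fin.sum_univ_one _).trans ?_
        change α 0 * (c * u) ^ 2 + α 1 * α 0 ^ 2 + c * (c * u * α 0) = 0
        linear_combination α 0 * h4 + α 0 ^ 2 * α 1 * h6
      obtain ⟨-, h5⟩ := blocks_aniso α c 0 (hna 0) _ _ h3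
      exact hα0 0 (congrFun h5 0))
    refine ⟨ZMod 2, inferInstance, act, h1, fun a => isOfFinAddOrder_of_finite a, h2⟩
  · let e : Fin (m + 1) × Fin 2 ≃ Fin (2 * m + 2) :=
      finProdFinEquiv.trans (finCongr (by ring))
    refine ⟨ff e (fun j => α (3 * j)) (fun j => α (3 * j + 1)) c,
      gg e (fun j => α (3 * j)) (fun j => α (3 * j + 1)) (fun j => α j) c, ff_hom _ _ _ _,
      gg_hom _ _ _ _ _, ?_, ?_⟩
    · intro x hx hf hg
      exact smooth_ff_gg e _ _ _ c hc (fun j => hα0 _)
        (fun i j h => Fin.ext (hαinj h)) x hx hf hg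
    · intro x hx
      have h1 := aeval_ff (A := E) e (fun j => α (3 * j)) (fun j => α (3 * j + 1)) c x
      rw [aeval_self] at h1
      have h2 : ∑ j : Fin (m + 1), (α (3 * j) * x (e (j, 0)) ^ 2 +
          α (3 * j + 1) * x (e (j, 1)) ^ 2 + c * (x (e (j, 0)) * x (e (j, 1)))) = 0 := by
        rw [← hx]
        exact h1.symm
      obtain ⟨h3, h4⟩ := blocks_aniso α c m (hna m) _ _ h2
      funext i
      obtain ⟨⟨j, r⟩, rfl⟩ := e.surjective i
      fin_cases r
      · exact congrFun h3 j
      · exact congrFun h4 j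

/-- a field of characteristic two with all the required data -/
theorem field_data (k₀ : Type) [Field k₀] [CharP k₀ 2] :
    ∃ (k : Type) (_ : Field k) (_ : Algebra k₀ k) (α : ℕ → k) (c : k), CharP k 2 ∧
    CdLeOne Gal(SeparableClosure k/k) ∧
    (∀ f : Polynomial k, Irreducible f → ∃ t, f.natDegree = 2 ^ t) ∧
    Function.Injective α ∧ (∀ i, α i ≠ 0) ∧ c ≠ 0 ∧
    ∀ m : ℕ, ¬ HasRationalPoint (dform (3 * m + 1) 2 (fun i => α i) c) := by
  have : Fact (Nat.Prime 2) := ⟨Nat.prime_two⟩
  let κ := FractionRing (MvPolynomial ℕ k₀)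
  let K0 := FractionRing (Polynomial κ)
  have : CharP κ 2 :=
    charP_of_injective_algebraMap (IsFractionRing.injective (MvPolynomial ℕ k₀) κ) 2
  have : CharP K0 2 :=
    charP_of_injective_algebraMap (IsFractionRing.injective (Polynomial κ) K0) 2
  obtain ⟨E, hE1, hE2⟩ := exists_maximal_prime_to 2 Nat.prime_two K0 (SeparableClosure K0)
  let toE : k₀ →+* E := (algebraMap K0 E).comp ((algebraMap (Polynomial κ) K0).comp
    (Polynomial.C.comp ((algebraMap (MvPolynomial ℕ k₀) κ).comp MvPolynomial.C)))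
  have hE : CharP E 2 := charP_of_injective_algebraMap (algebraMap K0 E).injective 2
  have hirr : ∀ f : Polynomial E, Irreducible f → ∃ t, f.natDegree = 2 ^ t :=
    irr_pow (fun M _ _ _ h => finrank_eq_one_of_prime_to hE2 M h)
  let α : ℕ → E := fun i => algebraMap K0 E (algebraMap (Polynomial κ) K0 (Polynomial.C
    (algebraMap (MvPolynomial ℕ k₀) κ (X i))))
  let c : E := algebraMap K0 E (algebraMap (Polynomial κ) K0 Polynomial.X)
  refine ⟨E, inferInstance, toE.toAlgebra, α, c, hE, cdLeOne_of hE2, hirr, ?_, ?_, ?_, ?_⟩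
  · intro i j h
    have h1 := (algebraMap K0 E).injective h
    have h2 := IsFractionRing.injective (Polynomial κ) K0 h1
    have h3 := Polynomial.C_injective h2
    have h4 := IsFractionRing.injective (MvPolynomial ℕ k₀) κ h3
    exact MvPolynomial.X_injective h4
  · intro i
    show algebraMap K0 E (algebraMap (Polynomial κ) K0 (Polynomial.C
      (algebraMap (MvPolynomial ℕ k₀) κ (X i)))) ≠ 0
    rw [ne_eq, map_eq_zero_iff _ (algebraMap K0 E).injective,
      map_eq_zero_iff _ (IsFractionRing.injective (Polynomial κ) K0), Polynomial.C_eq_zero,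
      map_eq_zero_iff _ (IsFractionRing.injective (MvPolynomial ℕ k₀) κ)]
    exact MvPolynomial.X_ne_zero _
  · show algebraMap K0 E (algebraMap (Polynomial κ) K0 Polynomial.X) ≠ 0
    rw [ne_eq, map_eq_zero_iff _ (algebraMap K0 E).injective,
      map_eq_zero_iff _ (IsFractionRing.injective (Polynomial κ) K0)]
    exact Polynomial.X_ne_zero
  · intro m h
    let a : Fin (3 * m + 1 + 1) → κ := fun i => algebraMap (MvPolynomial ℕ k₀) κ (X (i : ℕ))
    obtain ⟨x, hx, hx0, hdeg⟩ := rational_degree _ h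
    have h1 := dvd_pointField (p := 2) E hE1 (3 * m + 1) 2 1 (by omega) (by norm_num) a
      (indep_pow 2 k₀ (3 * m + 1)) x hx hx0
    rw [← hdeg] at h1
    omega

theorem main (k₀ : Type) [Field k₀] [CharP k₀ 2] :
    ∃ (k : Type) (_ : Field k) (_ : Algebra k₀ k), CharP k 2 ∧ CdLeOne Gal(SeparableClosure k/k) ∧
    (∃ (M : Type) (_ : AddCommGroup M) (_ : DistribMulAction Gal(SeparableClosure k/k) M),
      IsDiscreteModule Gal(SeparableClosure k/k) M ∧ (∀ a : M, IsOfFinAddOrder a) ∧
      ¬ HSuccVanishes Gal(SeparableClosure k/k) M 0) ∧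
    (∀ f : Polynomial k, Irreducible f → ∃ t, f.natDegree = 2 ^ t) ∧
    ∀ m : ℕ, ∃ f g : MvPolynomial (Fin (2 * m + 2)) k, f.IsHomogeneous 2 ∧ g.IsHomogeneous 2 ∧
      (∀ x : Fin (2 * m + 2) → AlgebraicClosure k, x ≠ 0 → aeval x f = 0 → aeval x g = 0 →
        LinearIndependent (AlgebraicClosure k) ![fun i => aeval x (pderiv i f),
          fun i => aeval x (pderiv i g)]) ∧
      (∀ x : Fin (2 * m + 2) → k, eval x f = 0 → x = 0) := by
  obtain ⟨k, _, halg, α, c, hchar, hcd, hirr, h1, h2, h3, h4⟩ := field_data k₀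
  obtain ⟨h5, h6⟩ := core α c h1 h2 h3 h4
  exact ⟨k, inferInstance, halg, hchar, hcd, h5, hirr, h6⟩

end Run7.h805.Quad
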